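import Pool.Agent.W894.MB.NoUniv

/-!
# Multiboard Gale-Stewart games: universal strategies of ONE need many boards
-/

namespace Pool.Agent.Results.MP_e811a4_lc.NoUniversalStrategy

open Cardinal Pool.Agent.W894.MBNeg

universe u

/-- `Universal K L`: ONE has a strategy for the boards `K` and moves in `L` such that, in every
play according to it, all the plays according to some strategy of TWO with one board appear on the
boards.
1. If `L` has at least as many elements as `M`, where `M` has at least two elements and
`M ^ |List M| = M ^ ℵ₀` (in cardinal arithmetic), and `K` has at most `M ^ ℵ₀` elements, then there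
is no such strategy.
2. So there is none if `L` has two elements and `K` has at most `2 ^ ℵ₀` elements.
3. For each `K` there is `M` such that, for all `L` at least as large as `M`, there is none. -/
theorem result :
    (∀ L M : Type u, Nonempty (M ↪ L) → (∃ a b : M, a ≠ b) → #(List M → M) = #(ℕ → M) →
      ∀ K : Type u, #K ≤ #(ℕ → M) → ¬ Universal K L) ∧
    (∀ L : Type u, (∃ a b : L, a ≠ b) → ∀ K : Type u, #K ≤ continuum.{u} → ¬ Universal K L) ∧
    (∀ K : Type u, ∃ M : Type u, ∀ L : Type u, Nonempty (M ↪ L) → ¬ Universal K L) := by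
  refine ⟨fun L M ⟨i⟩ hM h1 K h2 => not_universal i hM h1 K h2, fun L hL K hK => ?_,
    fun K => ?_⟩
  · obtain ⟨a, b, hab⟩ := hL
    have h1 : #(ℕ → ULift.{u} Bool) = continuum.{u} := by simp
    have h2 : #(List (ULift.{u} Bool) → ULift.{u} Bool) = continuum.{u} := by simp
    refine not_universal (M := ULift.{u} Bool)
      ⟨fun t => if t.down then a else b, ?_⟩ ⟨⟨true⟩, ⟨false⟩, by simp⟩ (h2.trans h1.symm) K
      (by rw [h1]; exact hK)
    rintro ⟨s⟩ ⟨t⟩ h
    cases s <;> cases t <;> simp_all [hab.symm]
  · obtain ⟨M, hM, h1, h2⟩ := Pool.Agent.W926.MDMu.main K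
    exact ⟨M, fun L ⟨i⟩ => not_universal i hM h1 K (h2.le.trans (Ordinal.cof_ord_le _))⟩

end Pool.Agent.Results.MP_e811a4_lc.NoUniversalStrategy
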