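import Pool.Agent.W894.MB.Neg
import Pool.Agent.W849.MDNeg
import Pool.Agent.W926.MDMu

/-!
# Multiboard Gale-Stewart games: how many boards are needed
-/

namespace Pool.Agent.Results.MP_e811a4_lc.NumberOfBoards

open Cardinal Pool.Agent.W894.MBNeg

universe u

/-- `OneWin K L A` and `TwoWin K L A`: ONE, TWO has a winning strategy in the game `GS_L(A, K)`,
in the formulation of the problem.
1. If `L` has at least as many elements as `M`, where `M` has at least two elements and
`M ^ |List M| = M ^ ℵ₀` (in cardinal arithmetic), and `K` has fewer than `cf(M ^ ℵ₀)` elements,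
then some game with boards `K` and moves in `L` is undetermined.
2. So this holds if `L` has two elements and `K` has fewer than `cf(2 ^ ℵ₀)` elements.
3. For each `K` there is `M` such that, for all `L` at least as large as `M`, some game with boards
`K` and moves in `L` is undetermined. -/
theorem result :
    (∀ L M : Type u, Nonempty (M ↪ L) → (∃ a b : M, a ≠ b) → #(List M → M) = #(ℕ → M) →
      ∀ K : Type u, Nonempty K → #K < (#(ℕ → M)).ord.cof →
        ∃ A : Set (ℕ → L), ¬ OneWin K L A ∧ ¬ TwoWin K L A) ∧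
    (∀ L : Type u, (∃ a b : L, a ≠ b) → ∀ K : Type u, Nonempty K →
      #K < (continuum.{u}).ord.cof →
        ∃ A : Set (ℕ → L), ¬ OneWin K L A ∧ ¬ TwoWin K L A) ∧
    (∀ K : Type u, Nonempty K → ∃ M : Type u, ∀ L : Type u, Nonempty (M ↪ L) →
        ∃ A : Set (ℕ → L), ¬ OneWin K L A ∧ ¬ TwoWin K L A) := by
  refine ⟨fun L M ⟨i⟩ hM h1 K hK h2 => Pool.Agent.W849.MDNeg.main L M i hM h1 K hK h2,
    fun L hL K hK hc => ?_, fun K hK => ?_⟩
  · obtain ⟨a, b, hab⟩ := hL
    have h1 : #(ℕ → ULift.{u} Bool) = continuum.{u} := by simp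
    have h2 : #(List (ULift.{u} Bool) → ULift.{u} Bool) = continuum.{u} := by simp
    refine Pool.Agent.W849.MDNeg.main L (ULift.{u} Bool)
      ⟨fun t => if t.down then a else b, ?_⟩ ⟨⟨true⟩, ⟨false⟩, by simp⟩ (h2.trans h1.symm) K hK
      (by rw [h1]; exact hc)
    rintro ⟨s⟩ ⟨t⟩ h
    cases s <;> cases t <;> simp_all [hab.symm]
  · obtain ⟨M, hM, h1, h2⟩ := Pool.Agent.W926.MDMu.main K
    exact ⟨M, fun L ⟨i⟩ => Pool.Agent.W849.MDNeg.main L M i hM h1 K hK h2⟩

end Pool.Agent.Results.MP_e811a4_lc.NumberOfBoards
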