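import Pool.Agent.W894.MB.Univ

/-!
# Multiboard Gale-Stewart games: determinacy and universal strategies of ONE
-/

namespace Pool.Agent.Results.MP_e811a4_lc.UniversalStrategies

open Pool.Agent.W894.MBNeg

universe u

/-- `OneWin K L A` and `TwoWin K L A`: ONE, TWO has a winning strategy in the game `GS_L(A, K)`,
in the formulation of the problem. `Universal K L`: ONE has a strategy for the boards `K` such
that, in every play according to it, all the plays according to some strategy of TWO with one
board appear on the boards.
If ONE has such a strategy, then all games with boards `K` and moves in `L` are determined. If all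
these games are determined, then ONE has such a strategy for the boards `K × Set (ℕ → L)`. So for
some number of boards all games with moves in `L` are determined iff for some number of boards ONE
has such a strategy. -/
theorem result (L : Type u) :
    (∀ K : Type u, Universal K L → ∀ A : Set (ℕ → L), OneWin K L A ∨ TwoWin K L A) ∧
    (∀ K : Type u, Nonempty K → (∀ A : Set (ℕ → L), OneWin K L A ∨ TwoWin K L A) →
      Universal (K × Set (ℕ → L)) L) ∧
    ((∃ K : Type u, Nonempty K ∧ ∀ A : Set (ℕ → L), OneWin K L A ∨ TwoWin K L A) ↔
      ∃ K : Type u, Nonempty K ∧ Universal K L) := by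
  refine ⟨fun K h => determined_of_universal h, fun K hK h => universal_of_determined h, ?_, ?_⟩
  · rintro ⟨K, ⟨k⟩, h⟩
    have : Nonempty K := ⟨k⟩
    exact ⟨K × Set (ℕ → L), ⟨(k, ∅)⟩, universal_of_determined h⟩
  · rintro ⟨K, hK, h⟩
    exact ⟨K, hK, determined_of_universal h⟩

end Pool.Agent.Results.MP_e811a4_lc.UniversalStrategies
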